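import Pool.Agent.H59.HR.Stm

/-! Part A1 of the project HR (helper59): the family is free of rank `n`. -/

set_option autoImplicit false
set_option linter.all false

open Polynomial

namespace HR

/-- the coefficients of `F(x, a(x))` -/
noncomputable def psiA1 (n : ℕ) (a : LP[X]) : P2 ℂ[X] →ₗ[ℂ[X]] (Fin n → LP) where
  toFun F := fun i => (ev a (MvPolynomial.map (Polynomial.toLaurent : ℂ[X] →+* LP) F)).coeff i
  map_add' F G := by
    funext i
    simp only [map_add, Polynomial.coeff_add, Pi.add_apply]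
  map_smul' c F := by
    funext i
    simp only [MvPolynomial.smul_eq_C_mul, map_mul, MvPolynomial.map_C, ev_C,
      Polynomial.coeff_C_mul, RingHom.id_apply, Pi.smul_apply]
    rw [Algebra.smul_def]
    rfl

theorem psiA1_eq_zero {n : ℕ} {a : LP[X]} {F : P2 ℂ[X]} : psiA1 n a F = 0 ↔ F ∈ fam n a := by
  rw [mem_fam, Polynomial.X_pow_dvd_iff]
  constructor
  · intro h d hd
    exact congrFun h ⟨d, hd⟩
  · intro h
    funext i
    exact h i i.2

theorem A1 : S_A1 := by
  intro n hn a ha0
  have hker : LinearMap.ker (psiA1 n a) = (fam n a).restrictScalars ℂ[X] := by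
    ext F
    rw [LinearMap.mem_ker, psiA1_eq_zero]
    rfl
  -- the embedding of the quotient
  let e1 : (P2 ℂ[X] ⧸ fam n a) ≃ₗ[ℂ[X]] (P2 ℂ[X] ⧸ (fam n a).restrictScalars ℂ[X]) :=
    (Submodule.Quotient.restrictScalarsEquiv ℂ[X] (fam n a)).symm
  let φ : (P2 ℂ[X] ⧸ fam n a) →ₗ[ℂ[X]] (Fin n → LP) :=
    (Submodule.liftQ _ (psiA1 n a) hker.ge) ∘ₗ (e1 : _ →ₗ[ℂ[X]] _)
  have hφ : ∀ F : P2 ℂ[X], φ (Ideal.Quotient.mk (fam n a) F) = psiA1 n a F := fun F => rfl
  have hinj : Function.Injective φ := by
    rw [injective_iff_map_eq_zero]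
    intro q hq
    obtain ⟨F, rfl⟩ := Ideal.Quotient.mk_surjective q
    rw [hφ, psiA1_eq_zero] at hq
    exact Ideal.Quotient.eq_zero_iff_mem.mpr hq
  have hxn : (MvPolynomial.X 0 : P2 ℂ[X]) ^ n ∈ fam n a := by
    rw [mem_fam, map_pow, MvPolynomial.map_X, map_pow, ev_X0]
  have hyn : (MvPolynomial.X 1 : P2 ℂ[X]) ^ n ∈ fam n a := by
    rw [mem_fam, map_pow, MvPolynomial.map_X, map_pow, ev_X1]
    apply pow_dvd_pow_of_dvd
    rw [Polynomial.X_dvd_iff]
    exact ha0
  have hspan : Submodule.span ℂ[X] ((fun p : Fin n × Fin n =>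
      Ideal.Quotient.mk (fam n a) (mon ℂ[X] (p.1, p.2))) '' Set.univ) = ⊤ := by
    rw [eq_top_iff]
    rintro q -
    obtain ⟨F, rfl⟩ := Ideal.Quotient.mk_surjective q
    induction F using MvPolynomial.induction_on' with
    | monomial u c =>
      have e : (MvPolynomial.monomial u c : P2 ℂ[X]) = c • mon ℂ[X] (u 0, u 1) := by
        rw [mon_eq, ex_eq, MvPolynomial.smul_monomial, smul_eq_mul, mul_one]
      by_cases h : u 0 < n ∧ u 1 < n
      · rw [e]
        have : Ideal.Quotient.mk (fam n a) (c • mon ℂ[X] (u 0, u 1)) =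
            c • Ideal.Quotient.mk (fam n a) (mon ℂ[X] (u 0, u 1)) := rfl
        rw [this]
        apply Submodule.smul_mem
        apply Submodule.subset_span
        exact ⟨(⟨u 0, h.1⟩, ⟨u 1, h.2⟩), Set.mem_univ _, rfl⟩
      · have hz : Ideal.Quotient.mk (fam n a) (MvPolynomial.monomial u c : P2 ℂ[X]) = 0 := by
          rw [Ideal.Quotient.eq_zero_iff_mem, e, MvPolynomial.smul_eq_C_mul]
          apply Ideal.mul_mem_left
          rw [not_and_or, not_lt, not_lt] at h
          rcases h with h | h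
          · obtain ⟨k, hk⟩ := Nat.exists_eq_add_of_le h
            rw [mon, hk, pow_add]
            exact Ideal.mul_mem_right _ _ (Ideal.mul_mem_right _ _ hxn)
          · obtain ⟨k, hk⟩ := Nat.exists_eq_add_of_le h
            rw [mon, hk, pow_add]
            exact Ideal.mul_mem_left _ _ (Ideal.mul_mem_right _ _ hyn)
        rw [hz]
        exact Submodule.zero_mem _
    | add p q hp hq =>
      rw [map_add]
      exact Submodule.add_mem _ hp hq
  have hfin : Module.Finite ℂ[X] (P2 ℂ[X] ⧸ fam n a) :=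
    ⟨Submodule.fg_def.mpr ⟨_, Set.finite_univ.image _, hspan⟩⟩
  have hinjL : Function.Injective (algebraMap ℂ[X] LP) := Polynomial.toLaurent_injective
  have hfs : FaithfulSMul ℂ[X] LP := (faithfulSMul_iff_algebraMap_injective _ _).mpr hinjL
  have htf : Module.IsTorsionFree ℂ[X] (P2 ℂ[X] ⧸ fam n a) := by
    have h1 : Module.IsTorsionFree ℂ[X] (Fin n → LP) := inferInstance
    exact hinj.moduleIsTorsionFree _ (fun c x => map_smul φ c x)
  have hfree : Module.Free ℂ[X] (P2 ℂ[X] ⧸ fam n a) := inferInstance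
  refine ⟨hfree, hfin, ?_⟩
  have hrankL : Module.rank ℂ[X] (Fin n → LP) = n := by
    have h1 := IsLocalization.rank_eq (R := ℂ[X]) (N := Fin n → LP) LP
      (Submonoid.powers (X : ℂ[X])) (by
        exact powers_le_nonZeroDivisors_of_noZeroDivisors Polynomial.X_ne_zero)
    rw [← h1, rank_fun']
    simp
  apply le_antisymm
  · apply Module.finrank_le_of_rank_le
    rw [← hrankL]
    exact LinearMap.rank_le_of_injective φ hinj
  · have hli : LinearIndependent ℂ[X] (fun i : Fin n =>
        Ideal.Quotient.mk (fam n a) ((MvPolynomial.X 0 : P2 ℂ[X]) ^ (i : ℕ))) := by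
      apply LinearIndependent.of_comp φ
      have e : (φ ∘ fun i : Fin n =>
          Ideal.Quotient.mk (fam n a) ((MvPolynomial.X 0 : P2 ℂ[X]) ^ (i : ℕ))) =
          fun i : Fin n => (Pi.basisFun LP (Fin n)) i := by
        funext i
        funext k
        show psiA1 n a _ k = _
        show (ev a (MvPolynomial.map (Polynomial.toLaurent : ℂ[X] →+* LP)
          ((MvPolynomial.X 0 : P2 ℂ[X]) ^ (i : ℕ)))).coeff k = _
        rw [map_pow, MvPolynomial.map_X, map_pow, ev_X0, Polynomial.coeff_X_pow,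
          Pi.basisFun_apply, Pi.single_apply]
        simp only [Fin.ext_iff]
      rw [e]
      apply (Pi.basisFun LP (Fin n)).linearIndependent.restrict_scalars
      intro c d h
      simp only [Algebra.smul_def, mul_one] at h
      exact hinjL h
    have := hli.fintype_card_le_finrank
    simpa using this

end HR
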