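import Pool.Agent.H59.HR.Stm

/-! Part A4 of the project HR (helper59): fibres of free families. -/

set_option autoImplicit false
set_option linter.all false

open Polynomial

namespace HR

theorem A4 : S_A4 := by
  intro n I hfree hfin hrank t
  let π : P2 ℂ[X] →+* P2 ℂ := MvPolynomial.map (Polynomial.evalRingHom t)
  have hπ : Function.Surjective π :=
    MvPolynomial.map_surjective _ (fun z => ⟨Polynomial.C z, by simp⟩)
  let θ : (P2 ℂ[X] ⧸ I) →+* (P2 ℂ ⧸ fibre I t) :=
    Ideal.quotientMap (fibre I t) π Ideal.le_comap_map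
  have hθmk : ∀ F, θ (Ideal.Quotient.mk I F) = Ideal.Quotient.mk (fibre I t) (π F) := fun F => rfl
  have hθs : Function.Surjective θ := Ideal.quotientMap_surjective hπ
  have hker : ∀ m, θ m = 0 → ∃ m' : P2 ℂ[X] ⧸ I, m = (X - C t : ℂ[X]) • m' := by
    intro m hm
    obtain ⟨F, rfl⟩ := Ideal.Quotient.mk_surjective m
    rw [hθmk, Ideal.Quotient.eq_zero_iff_mem] at hm
    have hm' : π F ∈ Ideal.map π I := hm
    rw [Ideal.mem_map_iff_of_surjective π hπ] at hm'
    obtain ⟨G, hG, hGF⟩ := hm'
    have h1 : F - G ∈ RingHom.ker π := by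
      rw [RingHom.mem_ker, map_sub, hGF, sub_self]
    have h2 : RingHom.ker π = Ideal.span {MvPolynomial.C (X - C t : ℂ[X])} := by
      show RingHom.ker (MvPolynomial.map (Polynomial.evalRingHom t)) = _
      rw [MvPolynomial.ker_map, Polynomial.ker_evalRingHom, Ideal.map_span, Set.image_singleton]
    rw [h2, Ideal.mem_span_singleton] at h1
    obtain ⟨H, hH⟩ := h1
    refine ⟨Ideal.Quotient.mk I H, ?_⟩
    have h3 : (X - C t : ℂ[X]) • Ideal.Quotient.mk I H =
        Ideal.Quotient.mk I (MvPolynomial.C (X - C t : ℂ[X]) * H) := by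
      rw [← MvPolynomial.smul_eq_C_mul]; rfl
    rw [h3, Ideal.Quotient.eq, ← hH]
    have : F - (F - G) = G := by ring
    rw [this]; exact hG
  have hsm : ∀ (c : ℂ[X]) (m : P2 ℂ[X] ⧸ I), θ (c • m) = (c.eval t) • θ m := by
    intro c m
    obtain ⟨F, rfl⟩ := Ideal.Quotient.mk_surjective m
    have h3 : c • Ideal.Quotient.mk I F = Ideal.Quotient.mk I (MvPolynomial.C c * F) := by
      rw [← MvPolynomial.smul_eq_C_mul]; rfl
    rw [h3, hθmk, hθmk, map_mul]
    have h4 : π (MvPolynomial.C c) = MvPolynomial.C (c.eval t) := by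
      show MvPolynomial.map (Polynomial.evalRingHom t) (MvPolynomial.C c) = _
      rw [MvPolynomial.map_C]; rfl
    rw [h4, ← MvPolynomial.smul_eq_C_mul]; rfl
  let b : Module.Basis (Fin n) ℂ[X] (P2 ℂ[X] ⧸ I) := Module.finBasisOfFinrankEq _ _ hrank
  have hli : LinearIndependent ℂ (fun i => θ (b i)) := by
    rw [Fintype.linearIndependent_iff]
    intro g hg i
    have h1 : θ (∑ j, (C (g j) : ℂ[X]) • b j) = 0 := by
      rw [map_sum, ← hg]
      apply Finset.sum_congr rfl
      intro j _
      rw [hsm, Polynomial.eval_C]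
    obtain ⟨m', hm'⟩ := hker _ h1
    have h2 := congrArg (fun m => (b.repr m i)) hm'
    simp only [map_sum, map_smul, Module.Basis.repr_self, Finsupp.smul_single, smul_eq_mul, mul_one,
      Finsupp.coe_smul, Pi.smul_apply] at h2
    rw [Finsupp.finset_sum_apply] at h2
    rw [Finset.sum_eq_single i (by
      intro j _ hji
      rw [Finsupp.single_eq_of_ne' hji]) (by simp)] at h2
    rw [Finsupp.single_eq_same] at h2
    have h3 := congrArg (Polynomial.eval t) h2
    simpa using h3
  have hsp : ⊤ ≤ Submodule.span ℂ (Set.range (fun i => θ (b i))) := by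
    rintro q -
    obtain ⟨m, rfl⟩ := hθs q
    rw [← b.sum_repr m, map_sum]
    apply Submodule.sum_mem
    intro i _
    rw [hsm]
    exact Submodule.smul_mem _ _ (Submodule.subset_span ⟨i, rfl⟩)
  let B := Module.Basis.mk hli hsp
  exact ⟨Module.Finite.of_basis B, by rw [Module.finrank_eq_card_basis B, Fintype.card_fin]⟩

end HR
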