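import Pool.Agent.H59.HR.Stm

/-! Part NP of the project HR (helper59): nilpotency from `n - 1` traces at the universal point. -/

set_option autoImplicit false
set_option linter.all false

open Polynomial

namespace HR

theorem traceNP {A : Type} [CommRing A] [Nontrivial A] {n : ℕ} (hn : 0 < n)
    (X Y : Matrix (Fin n) (Fin n) A) (v : Fin n → A) (pq : Fin n → ℕ × ℕ)
    (h0 : pq ⟨0, hn⟩ = (0, 0)) (hXY : X * Y = Y * X) (hW : IsUnit (Wmat X Y v pq).det)
    {E : Type} [CommRing E] (φ : A →+* E)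
    (hc : ∀ f : P2 A, mev X Y f = 0 → φ (MvPolynomial.constantCoeff f) = 0)
    (ht : ∀ b, b ≠ ⟨0, hn⟩ → φ (Matrix.trace (X ^ (pq b).1 * Y ^ (pq b).2)) = 0)
    (r : ℕ × ℕ) (hr : r ≠ (0, 0)) : φ (Matrix.trace (X ^ r.1 * Y ^ r.2)) = 0 := by
  set W := Wmat X Y v pq with hWdef
  -- coordinates
  set c : Fin n → A := W⁻¹.mulVec ((X ^ r.1 * Y ^ r.2).mulVec v) with hcdef
  have hWc : W.mulVec c = (X ^ r.1 * Y ^ r.2).mulVec v := by
    rw [hcdef, Matrix.mulVec_mulVec, Matrix.mul_nonsing_inv W hW, Matrix.one_mulVec]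
  set f : P2 A := mon A r - ∑ b, MvPolynomial.C (c b) * mon A (pq b) with hf
  have hmev : mev X Y f = X ^ r.1 * Y ^ r.2 - ∑ b, c b • (X ^ (pq b).1 * Y ^ (pq b).2) := by
    show mevAdd X Y f = _
    rw [hf, map_sub, map_sum]
    congr 1
    · exact mev_mon X Y r
    · apply Finset.sum_congr rfl
      intro b _
      show mev X Y _ = _
      rw [mev_mul X Y hXY, mev_C, mev_mon, smul_mul_assoc, one_mul]
  have hcomm : ∀ b, mev X Y f * (X ^ (pq b).1 * Y ^ (pq b).2) =
      (X ^ (pq b).1 * Y ^ (pq b).2) * mev X Y f := by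
    intro b
    rw [← mev_mon X Y (pq b), ← mev_mul X Y hXY, ← mev_mul X Y hXY, mul_comm]
  have hkill : (mev X Y f).mulVec v = 0 := by
    rw [hmev, Matrix.sub_mulVec, ← hWc, sub_eq_zero]
    rw [Matrix.sum_mulVec]
    funext a
    rw [Finset.sum_apply]
    simp only [Matrix.smul_mulVec, Pi.smul_apply, smul_eq_mul]
    rw [Matrix.mulVec, dotProduct]
    apply Finset.sum_congr rfl
    intro b _
    rw [mul_comm]; rfl
  have hDW : mev X Y f * W = 0 := by
    ext a b
    have h1 : (mev X Y f * W) a b =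
        ((mev X Y f).mulVec ((X ^ (pq b).1 * Y ^ (pq b).2).mulVec v)) a := by
      rw [Matrix.mul_apply, Matrix.mulVec, dotProduct]
      rfl
    rw [h1, Matrix.mulVec_mulVec, hcomm, ← Matrix.mulVec_mulVec, hkill, Matrix.mulVec_zero]
    rfl
  have hf0 : mev X Y f = 0 := by
    have h1 : mev X Y f * W * W⁻¹ = 0 := by rw [hDW, zero_mul]
    rwa [Matrix.mul_assoc, Matrix.mul_nonsing_inv W hW, Matrix.mul_one] at h1
  -- no other exponent is zero
  have hpq : ∀ b, b ≠ ⟨0, hn⟩ → pq b ≠ (0, 0) := by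
    intro b hb hb0
    apply hW.ne_zero
    apply Matrix.det_zero_of_column_eq hb
    intro a
    show ((X ^ (pq b).1 * Y ^ (pq b).2).mulVec v) a =
      ((X ^ (pq ⟨0, hn⟩).1 * Y ^ (pq ⟨0, hn⟩).2).mulVec v) a
    rw [hb0, h0]
  have hcst : ∀ s : ℕ × ℕ, MvPolynomial.constantCoeff (mon A s) = if s = (0, 0) then 1 else 0 := by
    intro s
    rw [mon, map_mul, map_pow, map_pow, MvPolynomial.constantCoeff_X, MvPolynomial.constantCoeff_X]
    by_cases hs : s = (0, 0)
    · rw [if_pos hs, hs]; simp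
    · rw [if_neg hs]
      by_cases h1 : s.1 = 0
      · have h2 : s.2 ≠ 0 := fun h2 => hs (Prod.ext h1 h2)
        rw [zero_pow h2, mul_zero]
      · rw [zero_pow h1, zero_mul]
  have hcf : MvPolynomial.constantCoeff f = -(c ⟨0, hn⟩) := by
    rw [hf, map_sub, hcst, if_neg hr, map_sum, zero_sub]
    congr 1
    rw [Finset.sum_eq_single (⟨0, hn⟩ : Fin n)]
    · rw [map_mul, hcst, h0, if_pos rfl, MvPolynomial.constantCoeff_C, mul_one]
    · intro b _ hb
      rw [map_mul, hcst, if_neg (hpq b hb), mul_zero]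
    · intro h; exact absurd (Finset.mem_univ _) h
  have hφc : φ (c ⟨0, hn⟩) = 0 := by
    have := hc f hf0
    rw [hcf, map_neg, neg_eq_zero] at this
    exact this
  rw [hmev, sub_eq_zero] at hf0
  rw [hf0, Matrix.trace_sum, map_sum]
  apply Finset.sum_eq_zero
  intro b _
  rw [Matrix.trace_smul, smul_eq_mul, map_mul]
  by_cases hb : b = ⟨0, hn⟩
  · rw [hb, hφc, zero_mul]
  · rw [ht b hb, mul_zero]

theorem nilNP (hTR : S_TR) {E : Type} [CommRing E] [IsDomain E] [Algebra ℂ E] {n : ℕ}
    (M : Matrix (Fin n) (Fin n) E) (h : ∀ k, 1 ≤ k → Matrix.trace (M ^ k) = 0) : IsNilpotent M := by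
  let K := FractionRing E
  have hcz : CharZero E := by
    have : Function.Injective (algebraMap ℂ E) := (algebraMap ℂ E).injective
    exact charZero_of_injective_algebraMap this
  have hczK : CharZero K := by
    exact charZero_of_injective_algebraMap (IsFractionRing.injective E K)
  let Φ : Matrix (Fin n) (Fin n) E →+* Matrix (Fin n) (Fin n) K := (algebraMap E K).mapMatrix
  have hinj : Function.Injective Φ := by
    intro M N hMN
    ext i j
    apply IsFractionRing.injective E K
    exact congrFun (congrFun hMN i) j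
  have h1 : IsNilpotent (Φ M) := by
    apply hTR K n
    intro k hk
    rw [← map_pow]
    have h2 : Matrix.trace (Φ (M ^ k)) = algebraMap E K (Matrix.trace (M ^ k)) := by
      rw [Matrix.trace, Matrix.trace, map_sum]
      rfl
    rw [h2, h k hk, map_zero]
  obtain ⟨k, hk⟩ := h1
  refine ⟨k, hinj ?_⟩
  rw [map_pow, hk, map_zero]

theorem NP (hTR : S_TR) : S_NP := by
  intro A E _ _ _ _ _ n hn X Y v pq φ h0 hXY hW hc ht
  have hnt : Nontrivial A := by
    by_contra h
    rw [not_nontrivial_iff_subsingleton] at h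
    have h1 : (0 : A) = 1 := Subsingleton.elim _ _
    have h2 := congrArg φ h1
    rw [map_zero, map_one] at h2
    exact zero_ne_one h2
  have key := traceNP hn X Y v pq h0 hXY hW (φ : A →+* E) hc ht
  let Φ : Matrix (Fin n) (Fin n) A →+* Matrix (Fin n) (Fin n) E := (φ : A →+* E).mapMatrix
  have htr : ∀ M, Matrix.trace (Φ M) = φ (Matrix.trace M) := by
    intro M
    rw [Matrix.trace, Matrix.trace, map_sum]
    rfl
  constructor
  · apply nilNP hTR
    intro k hk
    have h1 : (X.map φ) ^ k = Φ (X ^ k) := by rw [map_pow]; rfl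
    rw [h1, htr]
    have := key (k, 0) (by intro h; have := congrArg Prod.fst h; simp at this; omega)
    simpa using this
  · apply nilNP hTR
    intro k hk
    have h1 : (Y.map φ) ^ k = Φ (Y ^ k) := by rw [map_pow]; rfl
    rw [h1, htr]
    have := key (0, k) (by intro h; have := congrArg Prod.snd h; simp at this; omega)
    simpa using this

end HR
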