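import Pool.Agent.H59.HR.Stm

/-! Part UP of the project HR (helper59): the universal point. -/

set_option autoImplicit false
set_option linter.all false

open Polynomial

namespace HR

section UPaux

variable {A : Type} [CommRing A]

theorem decompUP (f : P2 A) : ∃ g h : P2 A, f = MvPolynomial.C (MvPolynomial.constantCoeff f) +
    MvPolynomial.X 0 * g + MvPolynomial.X 1 * h := by
  induction f using MvPolynomial.induction_on with
  | C c => exact ⟨0, 0, by simp⟩
  | add p q hp hq =>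
    obtain ⟨g, h, e⟩ := hp
    obtain ⟨g', h', e'⟩ := hq
    refine ⟨g + g', h + h', ?_⟩
    rw [map_add, map_add]
    linear_combination e + e'
  | mul_X p i hp =>
    fin_cases i
    · exact ⟨p, 0, by simp [mul_comm]⟩
    · exact ⟨0, p, by simp [mul_comm]⟩

theorem mevX0 {n : ℕ} (X Y : Matrix (Fin n) (Fin n) A) :
    mev X Y (MvPolynomial.X 0 : P2 A) = X := by
  have := mev_mon X Y (1, 0)
  simpa [mon] using this

theorem mevX1 {n : ℕ} (X Y : Matrix (Fin n) (Fin n) A) :
    mev X Y (MvPolynomial.X 1 : P2 A) = Y := by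
  have := mev_mon X Y (0, 1)
  simpa [mon] using this

theorem constUP {n : ℕ} (hn : 0 < n) (ε : A →+* ℂ) (X Y : Matrix (Fin n) (Fin n) A)
    (hXY : X * Y = Y * X) (hX : IsNilpotent (X.map ε)) (hY : IsNilpotent (Y.map ε)) (f : P2 A)
    (hf : mev X Y f = 0) : ε (MvPolynomial.constantCoeff f) = 0 := by
  obtain ⟨g, h, e⟩ := decompUP f
  set c := MvPolynomial.constantCoeff f with hc
  have e1 : mev X Y f = c • (1 : Matrix (Fin n) (Fin n) A) + X * mev X Y g + Y * mev X Y h := by
    conv_lhs => rw [e]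
    rw [mev_add, mev_add, mev_C, mev_mul X Y hXY, mev_mul X Y hXY, mevX0, mevX1]
  have cX : ∀ g : P2 A, Commute X (mev X Y g) := by
    intro g
    have h1 := mev_mul X Y hXY (MvPolynomial.X 0) g
    have h2 := mev_mul X Y hXY g (MvPolynomial.X 0)
    rw [mul_comm, h2, mevX0] at h1
    exact h1.symm
  have cY : ∀ g : P2 A, Commute Y (mev X Y g) := by
    intro g
    have h1 := mev_mul X Y hXY (MvPolynomial.X 1) g
    have h2 := mev_mul X Y hXY g (MvPolynomial.X 1)
    rw [mul_comm, h2, mevX1] at h1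
    exact h1.symm
  have cgh : ∀ g h : P2 A, Commute (mev X Y g) (mev X Y h) := by
    intro g h
    have h1 := mev_mul X Y hXY g h
    rw [mul_comm, mev_mul X Y hXY h g] at h1
    exact h1.symm
  let Φ : Matrix (Fin n) (Fin n) A →+* Matrix (Fin n) (Fin n) ℂ := ε.mapMatrix
  have hΦ : ∀ M, Φ M = M.map ε := fun M => rfl
  rw [hf] at e1
  have e2 := congrArg Φ e1
  rw [map_zero, map_add, map_add, map_mul, map_mul] at e2
  have n1 : IsNilpotent (Φ X * Φ (mev X Y g)) :=
    ((cX g).map Φ).isNilpotent_mul_right hX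
  have n2 : IsNilpotent (Φ Y * Φ (mev X Y h)) :=
    ((cY h).map Φ).isNilpotent_mul_right hY
  have cc : Commute (Φ X * Φ (mev X Y g)) (Φ Y * Φ (mev X Y h)) := by
    have a1 : Commute (Φ X) (Φ Y) := (show Commute X Y from hXY).map Φ
    have a2 : Commute (Φ X) (Φ (mev X Y h)) := (cX h).map Φ
    have a3 : Commute (Φ (mev X Y g)) (Φ Y) := ((cY g).map Φ).symm
    have a4 : Commute (Φ (mev X Y g)) (Φ (mev X Y h)) := (cgh g h).map Φ
    exact (a1.mul_right a2).mul_left (a3.mul_right a4)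
  have n3 := cc.isNilpotent_add n1 n2
  have e3 : Φ (c • (1 : Matrix (Fin n) (Fin n) A)) = ε c • (1 : Matrix (Fin n) (Fin n) ℂ) := by
    ext i j
    rw [hΦ, Matrix.map_apply, Matrix.smul_apply, Matrix.smul_apply, smul_eq_mul, map_mul, smul_eq_mul]
    congr 1
    by_cases hij : i = j
    · subst hij; simp
    · simp [Matrix.one_apply_ne hij]
  have n4 : IsNilpotent (ε c • (1 : Matrix (Fin n) (Fin n) ℂ)) := by
    have : ε c • (1 : Matrix (Fin n) (Fin n) ℂ) =
        -(Φ X * Φ (mev X Y g) + Φ Y * Φ (mev X Y h)) := by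
      rw [e3, add_assoc] at e2
      exact eq_neg_of_add_eq_zero_left e2.symm
    rw [this]
    exact n3.neg
  obtain ⟨k, hk⟩ := n4
  rw [_root_.smul_pow, one_pow] at hk
  have h0 := congrFun (congrFun hk ⟨0, hn⟩) ⟨0, hn⟩
  rw [Matrix.smul_apply, Matrix.one_apply_eq, Matrix.zero_apply, smul_eq_mul, mul_one] at h0
  exact eq_zero_of_pow_eq_zero h0

/-- the relations between `X` and `Y` -/
def relUP {n : ℕ} (X Y : Matrix (Fin n) (Fin n) A) (hXY : X * Y = Y * X) : Ideal (P2 A) where
  carrier := {f | mev X Y f = 0}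
  add_mem' := by
    intro f g hf hg
    show mev X Y (f + g) = 0
    rw [mev_add, show mev X Y f = 0 from hf, show mev X Y g = 0 from hg, add_zero]
  zero_mem' := mev_zero X Y
  smul_mem' := by
    intro c f hf
    show mev X Y (c * f) = 0
    rw [mev_mul X Y hXY, show mev X Y f = 0 from hf, mul_zero]

end UPaux

theorem UP : S_UP := by
  intro A _ _ _ _ n ε X Y hn hXY hX hY
  let I : Ideal (P2 A) := relUP X Y hXY
  let χ : P2 A →ₐ[ℂ] ℂ := ε.comp
    ((MvPolynomial.aeval (fun _ : Fin 2 => (0 : A)) : P2 A →ₐ[A] A).restrictScalars ℂ)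
  have hχ : ∀ f, χ f = ε (MvPolynomial.constantCoeff f) := by
    intro f
    show ε (MvPolynomial.aeval (fun _ : Fin 2 => (0 : A)) f) = _
    congr 1
    have h1 := MvPolynomial.aeval_zero' (R := A) (S₁ := A) (σ := Fin 2) f
    rw [h1]
    rfl
  have hI : ∀ f ∈ I, χ f = 0 := by
    intro f hf
    rw [hχ]
    exact constUP hn (ε : A →+* ℂ) X Y hXY hX hY f hf
  have hprime : (RingHom.ker χ).IsPrime := RingHom.ker_isPrime _
  obtain ⟨P, hP, hPle⟩ := Ideal.exists_minimalPrimes_le (I := I) (J := RingHom.ker χ)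
    (fun f hf => hI f hf)
  have hPp : P.IsPrime := hP.1.1
  have hIP : I ≤ P := hP.1.2
  let E := P2 A ⧸ P
  let q : P2 A →ₐ[ℂ] (P2 A ⧸ P) := Ideal.Quotient.mkₐ ℂ P
  have hq : ∀ f, q f = 0 ↔ f ∈ P := fun f => Ideal.Quotient.eq_zero_iff_mem
  let ι : A →ₐ[ℂ] (P2 A ⧸ P) := q.comp (IsScalarTower.toAlgHom ℂ A (P2 A))
  have hι : ∀ a, ι a = q (MvPolynomial.C a) := fun a => rfl
  let ε' : (P2 A ⧸ P) →ₐ[ℂ] ℂ := Ideal.Quotient.liftₐ P χ (fun f hf => hPle hf)
  have hε' : ∀ f, ε' (q f) = χ f := fun f => rfl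
  have hdom : IsDomain (P2 A ⧸ P) := Ideal.Quotient.isDomain P
  refine ⟨P2 A ⧸ P, inferInstance, hdom, inferInstance, ι, q (MvPolynomial.X 0),
    q (MvPolynomial.X 1), ε', ?_, ?_, ?_, ?_, ?_, ?_⟩
  · rw [injective_iff_map_eq_zero]
    intro a ha
    rw [hι, hq] at ha
    obtain ⟨y, hy, hay⟩ := Ideal.exists_mul_mem_of_mem_minimalPrimes hP ha
    have h1 : mev X Y (MvPolynomial.C a * y) = 0 := hay
    rw [mev_mul X Y hXY, mev_C, smul_mul_assoc, one_mul] at h1
    rcases smul_eq_zero.mp h1 with h | h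
    · exact h
    · exact absurd h hy
  · intro a
    rw [hι, hε', hχ]; simp
  · rw [hε', hχ]; simp
  · rw [hε', hχ]; simp
  · intro f hf
    have h1 : (MvPolynomial.eval₂Hom (ι : A →+* (P2 A ⧸ P)) ![q (MvPolynomial.X 0),
        q (MvPolynomial.X 1)]) = (q : P2 A →+* (P2 A ⧸ P)) := by
      apply MvPolynomial.ringHom_ext
      · intro a; simp [hι]
      · intro i; fin_cases i <;> simp
    have h2 := RingHom.congr_fun h1 f
    have h3 : MvPolynomial.eval₂ (ι : A →+* (P2 A ⧸ P)) ![q (MvPolynomial.X 0),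
        q (MvPolynomial.X 1)] f = q f := h2
    rw [h3, hq]
    exact hIP hf
  · rw [eq_top_iff]
    rintro e -
    obtain ⟨f, rfl⟩ := Ideal.Quotient.mk_surjective e
    induction f using MvPolynomial.induction_on with
    | C c => exact Algebra.subset_adjoin (Or.inl ⟨c, rfl⟩)
    | add p q hp hq =>
      rw [map_add]
      exact Subalgebra.add_mem _ hp hq
    | mul_X p i hp =>
      rw [map_mul]
      apply Subalgebra.mul_mem _ hp
      apply Algebra.subset_adjoin
      right
      fin_cases i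
      · left; rfl
      · right; rfl

end HR
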